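import Pool.Agent.Helper53_C4W.Stm2
import Pool.Agent.Helper31_C4.Loc
import Pool.Agent.C4M.Prob

/-!
# LLA: the local lemma of the base
-/

set_option autoImplicit false
set_option linter.unusedSectionVars false

open scoped BigOperators Classical

noncomputable section

namespace Pool.Agent.C4W.H82

open Finset
open Pool.Agent.C4M (IsNbd)
open Pool.Agent (LLLA.Pr LLLA.unif)

/-! ## balls -/

variable {V : Type} [Fintype V]

/-- adjacency of a set of arcs -/
def Adj (E : Set (V × V)) (x y : V) : Prop := (x, y) ∈ E ∨ (y, x) ∈ E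

/-- `z` is reachable from `x` in at most `n` steps -/
def rch (E : Set (V × V)) : ℕ → V → V → Prop
  | 0, x, z => x = z
  | n + 1, x, z => rch E n x z ∨ ∃ y, Adj E x y ∧ rch E n y z

theorem rch_self (E : Set (V × V)) (n : ℕ) (x : V) : rch E n x x := by
  induction n with
  | zero => rfl
  | succ n ih => exact Or.inl ih

theorem rch_le (E : Set (V × V)) {m n : ℕ} (h : m ≤ n) {x z : V} (hr : rch E m x z) :
    rch E n x z := by
  induction n, h using Nat.le_induction with
  | base => exact hr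
  | succ n _ ih => exact Or.inl ih

theorem rch_trans (E : Set (V × V)) (m n : ℕ) {x y z : V} (h1 : rch E m x y)
    (h2 : rch E n y z) : rch E (m + n) x z := by
  induction m generalizing x with
  | zero =>
    have : x = y := h1
    rw [this, Nat.zero_add]
    exact h2
  | succ m ih =>
    rw [Nat.succ_add]
    rcases h1 with h1 | ⟨w, hw, h1⟩
    · exact Or.inl (ih h1)
    · exact Or.inr ⟨w, hw, ih h1⟩

theorem rch_symm (E : Set (V × V)) (n : ℕ) {x z : V} (h : rch E n x z) : rch E n z x := by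
  induction n generalizing x with
  | zero => exact (show x = z from h).symm
  | succ n ih =>
    rcases h with h | ⟨y, hy, h⟩
    · exact Or.inl (ih h)
    · have h1 : rch E 1 y x := Or.inr ⟨x, hy.symm, rfl⟩
      exact rch_trans E n 1 (ih h) h1

/-- ball -/
def ball (E : Set (V × V)) (n : ℕ) (x : V) : Finset V := univ.filter fun z => rch E n x z

theorem mem_ball (E : Set (V × V)) (n : ℕ) (x z : V) : z ∈ ball E n x ↔ rch E n x z := by
  unfold ball; simp

theorem card_ball (E : Set (V × V)) (K : ℕ) (hK : ∀ x, (univ.filter fun y => Adj E x y).card ≤ K)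
    (n : ℕ) (x : V) : (ball E n x).card ≤ (K + 1) ^ n := by
  induction n generalizing x with
  | zero =>
    have : ball E 0 x = {x} := by
      ext z
      rw [mem_ball, Finset.mem_singleton]
      exact ⟨fun h => (show x = z from h).symm, fun h => h.symm⟩
    rw [this]; simp
  | succ n ih =>
    have hsub : ball E (n + 1) x ⊆ ball E n x ∪
        (univ.filter fun y => Adj E x y).biUnion fun y => ball E n y := by
      intro z hz
      rw [mem_ball] at hz
      rw [Finset.mem_union, Finset.mem_biUnion]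
      rcases hz with hz | ⟨y, hy, hz⟩
      · exact Or.inl ((mem_ball E n x z).2 hz)
      · exact Or.inr ⟨y, by simp [hy], (mem_ball E n y z).2 hz⟩
    calc (ball E (n + 1) x).card ≤ (ball E n x).card +
          ((univ.filter fun y => Adj E x y).biUnion fun y => ball E n y).card :=
          (Finset.card_le_card hsub).trans (Finset.card_union_le _ _)
      _ ≤ (K + 1) ^ n + K * (K + 1) ^ n := by
          apply Nat.add_le_add (ih x)
          refine (Finset.card_biUnion_le_card_mul _ _ ((K + 1) ^ n) fun y _ => ih y).trans ?_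
          exact Nat.mul_le_mul_right _ (hK x)
      _ = (K + 1) ^ (n + 1) := by ring

/-! ## locality of the ingredients -/

variable {M : ℕ}

/-- agreement of two labellings within distance `n` -/
def Agr (E : Set (V × V)) (H H' : V → Fin 40 → ZMod M) (n : ℕ) (x : V) : Prop :=
  ∀ z, rch E n x z → H z = H' z

theorem Agr.mono {E : Set (V × V)} {H H' : V → Fin 40 → ZMod M} {m n : ℕ} {x : V}
    (h : Agr E H H' n x) (hmn : m ≤ n) : Agr E H H' m x :=
  fun z hz => h z (rch_le E hmn hz)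

theorem Agr.step {E : Set (V × V)} {H H' : V → Fin 40 → ZMod M} {n : ℕ} {x y : V}
    (h : Agr E H H' (n + 1) x) (hxy : Adj E x y) : Agr E H H' n y :=
  fun z hz => h z (Or.inr ⟨y, hxy, hz⟩)

theorem Agr.self {E : Set (V × V)} {H H' : V → Fin 40 → ZMod M} {n : ℕ} {x : V}
    (h : Agr E H H' n x) : H x = H' x := h x (rch_self E n x)

theorem Agr.symm' {E : Set (V × V)} {H H' : V → Fin 40 → ZMod M} {n : ℕ} {x : V}
    (h : Agr E H H' n x) : Agr E H' H n x := fun z hz => (h z hz).symm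

theorem Rg_iff {R : Set (V × V)} {H H' : V → Fin 40 → ZMod M} (g : ℕ) {a b : V}
    (ha : H a = H' a) (hb : H b = H' b) : (a, b) ∈ Rg R H g ↔ (a, b) ∈ Rg R H' g := by
  unfold Rg
  simp only [Set.mem_ofPred_eq]
  rw [ha, hb]

theorem outN_Rg {E R : Set (V × V)} (hR : R ⊆ E) {H H' : V → Fin 40 → ZMod M} (g : ℕ) {x : V}
    (h : Agr E H H' 1 x) : outN (Rg R H g) x = outN (Rg R H' g) x := by
  ext y
  simp only [outN, Finset.mem_filter, Finset.mem_univ, true_and]
  by_cases hxy : (x, y) ∈ R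
  · have hy : H y = H' y := (h.step (n := 0) (Or.inl (hR hxy))).self
    exact Rg_iff g h.self hy
  · exact ⟨fun hh => absurd hh.1 hxy, fun hh => absurd hh.1 hxy⟩

theorem inN_Rg {E R : Set (V × V)} (hR : R ⊆ E) {H H' : V → Fin 40 → ZMod M} (g : ℕ) {x : V}
    (h : Agr E H H' 1 x) : inN (Rg R H g) x = inN (Rg R H' g) x := by
  ext y
  simp only [inN, Finset.mem_filter, Finset.mem_univ, true_and]
  by_cases hxy : (y, x) ∈ R
  · have hy : H y = H' y := (h.step (n := 0) (Or.inr (hR hxy))).self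
    exact Rg_iff g hy h.self
  · exact ⟨fun hh => absurd hh.1 hxy, fun hh => absurd hh.1 hxy⟩

theorem flp_eq {E R : Set (V × V)} (hR : R ⊆ E) {H H' : V → Fin 40 → ZMod M} (g : ℕ) {x : V}
    (h : Agr E H H' 1 x) : flp R H g x = flp R H' g x := by
  unfold flp
  rw [outN_Rg hR g h, outN_Rg hR (g + 1) h]

theorem flm_eq {E R : Set (V × V)} (hR : R ⊆ E) {H H' : V → Fin 40 → ZMod M} (g : ℕ) {x : V}
    (h : Agr E H H' 1 x) : flm R H g x = flm R H' g x := by
  unfold flm
  rw [inN_Rg hR g h, inN_Rg hR (g + 1) h]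

theorem lgood_of {E R O : Set (V × V)} (hR : R ⊆ E) (hO : O ⊆ E) {k s : ℕ}
    {H H' : V → Fin 40 → ZMod M} {g : ℕ} {x : V}
    (h : Agr E H H' 2 x) (hg : LGood k s R O H g x) : LGood k s R O H' g x := by
  have h1 : Agr E H H' 1 x := h.mono (by norm_num)
  refine ⟨?_, ?_, ?_, ?_⟩
  · rw [← flp_eq hR g h1]; exact hg.p1
  · rw [← flm_eq hR g h1]; exact hg.m1
  · have : ∑ y ∈ outN O x, flm R H' g y = ∑ y ∈ outN O x, flm R H g y := by
      apply Finset.sum_congr rfl
      intro y hy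
      have hy' : (x, y) ∈ O := by simpa [outN] using hy
      exact (flm_eq hR g (h.step (n := 1) (Or.inl (hO hy')))).symm
    rw [this]; exact hg.p2
  · have : ∑ y ∈ inN O x, flp R H' g y = ∑ y ∈ inN O x, flp R H g y := by
      apply Finset.sum_congr rfl
      intro y hy
      have hy' : (y, x) ∈ O := by simpa [inN] using hy
      exact (flp_eq hR g (h.step (n := 1) (Or.inr (hO hy')))).symm
    rw [this]; exact hg.m2

theorem mem_hst (O : Set (V × V)) (I : Finset (ZMod M)) (h : V → ZMod M) (e : V × V) :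
    e ∈ hst O I h ↔ e ∈ O ∧ h e.2 - h e.1 ∈ I := by
  unfold hst; simp

theorem hst_iff {O : Set (V × V)} {I : Finset (ZMod M)} {h h' : V → ZMod M} {a b : V}
    (ha : h a = h' a) (hb : h b = h' b) : (a, b) ∈ hst O I h ↔ (a, b) ∈ hst O I h' := by
  rw [mem_hst, mem_hst]
  simp only
  rw [ha, hb]

theorem lab_eq {H H' : V → Fin 40 → ZMod M} {z : V} (h : H z = H' z) (g : Fin 40) :
    lab H g z = lab H' g z := by
  unfold lab; rw [h]

theorem hgood_of {cc : ℝ} {E O : Set (V × V)} (hO : O ⊆ E) {k s : ℕ} {I : Finset (ZMod M)}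
    {Zp Zm : Finset V} {H H' : V → Fin 40 → ZMod M} {g : Fin 40} {x : V}
    (h : Agr E H H' 2 x) (hg : HGood cc k M s O I Zp Zm (lab H g) x) :
    HGood cc k M s O I Zp Zm (lab H' g) x := by
  have hx : lab H g x = lab H' g x := lab_eq h.self g
  have hout : ∀ y, (x, y) ∈ O → lab H g y = lab H' g y := fun y hy =>
    lab_eq (h.step (n := 1) (Or.inl (hO hy))).self g
  have hin : ∀ y, (y, x) ∈ O → lab H g y = lab H' g y := fun y hy =>
    lab_eq (h.step (n := 1) (Or.inr (hO hy))).self g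
  -- arcs at `x`
  have e1 : ∀ y, (x, y) ∈ hst O I (lab H g) ↔ (x, y) ∈ hst O I (lab H' g) := by
    intro y
    by_cases hy : (x, y) ∈ O
    · exact hst_iff hx (hout y hy)
    · rw [mem_hst, mem_hst]
      exact ⟨fun hh => absurd hh.1 hy, fun hh => absurd hh.1 hy⟩
  have e2 : ∀ y, (y, x) ∈ hst O I (lab H g) ↔ (y, x) ∈ hst O I (lab H' g) := by
    intro y
    by_cases hy : (y, x) ∈ O
    · exact hst_iff (hin y hy) hx
    · rw [mem_hst, mem_hst]
      exact ⟨fun hh => absurd hh.1 hy, fun hh => absurd hh.1 hy⟩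
  -- arcs at neighbours
  have e3 : ∀ y u, (x, y) ∈ O → ((u, y) ∈ hst O I (lab H g) ↔ (u, y) ∈ hst O I (lab H' g)) := by
    intro y u hy
    by_cases hu : (u, y) ∈ O
    · have h1 := h.step (n := 1) (Or.inl (hO hy))
      exact hst_iff (lab_eq (h1.step (n := 0) (Or.inr (hO hu))).self g) (hout y hy)
    · rw [mem_hst, mem_hst]
      exact ⟨fun hh => absurd hh.1 hu, fun hh => absurd hh.1 hu⟩
  have e4 : ∀ y u, (y, x) ∈ O → ((y, u) ∈ hst O I (lab H g) ↔ (y, u) ∈ hst O I (lab H' g)) := by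
    intro y u hy
    by_cases hu : (y, u) ∈ O
    · have h1 := h.step (n := 1) (Or.inr (hO hy))
      exact hst_iff (hin y hy) (lab_eq (h1.step (n := 0) (Or.inl (hO hu))).self g)
    · rw [mem_hst, mem_hst]
      exact ⟨fun hh => absurd hh.1 hu, fun hh => absurd hh.1 hu⟩
  have f1 : od (hst O I (lab H' g)) x = od (hst O I (lab H g)) x := by
    unfold od
    congr 1
    ext ⟨a, b⟩
    simp only [Finset.mem_filter]
    constructor
    · rintro ⟨h1, rfl⟩; exact ⟨(e1 b).2 h1, rfl⟩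
    · rintro ⟨h1, rfl⟩; exact ⟨(e1 b).1 h1, rfl⟩
  have f2 : idg (hst O I (lab H' g)) x = idg (hst O I (lab H g)) x := by
    unfold idg
    congr 1
    ext ⟨a, b⟩
    simp only [Finset.mem_filter]
    constructor
    · rintro ⟨h1, rfl⟩; exact ⟨(e2 a).2 h1, rfl⟩
    · rintro ⟨h1, rfl⟩; exact ⟨(e2 a).1 h1, rfl⟩
  have f3 : m2p (hst O I (lab H' g)) Zp x = m2p (hst O I (lab H g)) Zp x := by
    unfold m2p
    congr 1
    ext ⟨a, b⟩
    simp only [Finset.mem_filter, Finset.mem_univ, true_and]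
    constructor
    · rintro ⟨h1, h2, h3⟩
      have h4 := (e1 a).2 h1
      exact ⟨h4, (e3 a b ((mem_hst _ _ _ _).1 h4).1).2 h2, h3⟩
    · rintro ⟨h1, h2, h3⟩
      exact ⟨(e1 a).1 h1, (e3 a b ((mem_hst _ _ _ _).1 h1).1).1 h2, h3⟩
  have f4 : m2m (hst O I (lab H' g)) Zm x = m2m (hst O I (lab H g)) Zm x := by
    unfold m2m
    congr 1
    ext ⟨a, b⟩
    simp only [Finset.mem_filter, Finset.mem_univ, true_and]
    constructor
    · rintro ⟨h1, h2, h3⟩
      have h4 := (e2 a).2 h1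
      exact ⟨h4, (e4 a b ((mem_hst _ _ _ _).1 h4).1).2 h2, h3⟩
    · rintro ⟨h1, h2, h3⟩
      exact ⟨(e2 a).1 h1, (e4 a b ((mem_hst _ _ _ _).1 h1).1).1 h2, h3⟩
  have f5 : ((hst O I (lab H' g)).filter fun e => e.2 = x ∧ e.1 ∈ Zp).card =
      ((hst O I (lab H g)).filter fun e => e.2 = x ∧ e.1 ∈ Zp).card := by
    congr 1
    ext ⟨a, b⟩
    simp only [Finset.mem_filter]
    constructor
    · rintro ⟨h1, rfl, h2⟩; exact ⟨(e2 a).2 h1, rfl, h2⟩
    · rintro ⟨h1, rfl, h2⟩; exact ⟨(e2 a).1 h1, rfl, h2⟩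
  have f6 : ((hst O I (lab H' g)).filter fun e => e.1 = x ∧ e.2 ∈ Zm).card =
      ((hst O I (lab H g)).filter fun e => e.1 = x ∧ e.2 ∈ Zm).card := by
    congr 1
    ext ⟨a, b⟩
    simp only [Finset.mem_filter]
    constructor
    · rintro ⟨h1, rfl, h2⟩; exact ⟨(e1 b).2 h1, rfl, h2⟩
    · rintro ⟨h1, rfl, h2⟩; exact ⟨(e1 b).1 h1, rfl, h2⟩
  exact ⟨by rw [f1]; exact hg.dp, by rw [f2]; exact hg.dm, by rw [f3]; exact hg.mp,
    by rw [f4]; exact hg.mm, by rw [f5]; exact hg.kp, by rw [f6]; exact hg.km⟩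

/-! ## locality of the weights -/

theorem RE (X : BIn V M) : X.R ⊆ X.E := Set.subset_union_left

theorem OE (X : BIn V M) (g : Fin 40) : X.O g ⊆ X.E := fun _ hp =>
  Or.inr (Set.mem_iUnion.2 ⟨g, hp⟩)

theorem agree_dat (X : BIn V M) (s : ℕ) {H H' : V → Fin 40 → ZMod M} (g : Fin 40) (d : ZMod M)
    {x : V} (h : Agr X.E H H' 1 x) :
    Agree (X.dat s H g d) (X.dat s H' g d) (lab H g) (lab H' g) x where
  s := rfl
  I := rfl
  i1 := rfl
  i2 := rfl
  R := fun y => by
    have h1 := outN_Rg (RE X) g h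
    have h2 := inN_Rg (RE X) g h
    constructor
    · have h3 : y ∈ outN (Rg X.R H g) x ↔ y ∈ outN (Rg X.R H' g) x := by rw [h1]
      simp only [outN, Finset.mem_filter, Finset.mem_univ, true_and] at h3
      exact h3
    · have h3 : y ∈ inN (Rg X.R H g) x ↔ y ∈ inN (Rg X.R H' g) x := by rw [h2]
      simp only [inN, Finset.mem_filter, Finset.mem_univ, true_and] at h3
      exact h3
  O := fun y => ⟨Iff.rfl, Iff.rfl⟩
  β := fun y => ⟨rfl, rfl⟩
  f := by
    constructor
    · show trunc M (X.fp H g d x) = trunc M (X.fp H' g d x)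
      unfold BIn.fp
      rw [outN_Rg (RE X) g h]
    · show trunc M (X.fm H g d x) = trunc M (X.fm H' g d x)
      unfold BIn.fm
      rw [inN_Rg (RE X) g h]
  h := lab_eq h.self g

theorem agreeN_dat (X : BIn V M) (s : ℕ) {H H' : V → Fin 40 → ZMod M} (g : Fin 40) (d : ZMod M)
    (n : ℕ) : ∀ {x : V}, Agr X.E H H' (n + 1) x →
    AgreeN (X.dat s H g d) (X.dat s H' g d) (lab H g) (lab H' g) n x := by
  induction n with
  | zero => intro x h; exact agree_dat X s g d h
  | succ n ih =>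
    intro x h
    refine ⟨agree_dat X s g d (h.mono (by omega)), fun y hy => ih (h.step ?_)⟩
    rcases hy with hy | hy | hy | hy
    · exact Or.inl (RE X hy.1)
    · exact Or.inr (RE X hy.1)
    · exact Or.inl (OE X g hy)
    · exact Or.inr (OE X g hy)

theorem badW_of (loc : LOCStmt) {k q : ℕ} {D D' : Dat V M} {h h' : V → ZMod M} {x : V}
    (hA : AgreeN D D' h h' 8 x) (hb : BadW k q D h x) : BadW k q D' h' x := by
  obtain ⟨h1, h2⟩ := loc V M q D D' h h' x hA
  have h0 := H31.agreeN_agree hA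
  rcases hb with ⟨y, hy, hb⟩ | hb
  · left
    refine ⟨y, ((h0.O y).1).1 hy, ?_⟩
    rw [← h2 y hy]
    exact hb
  · right
    rw [← h1, ← h0.h, ← H31.lc_fld (.P .f) D D' h h' x
      (H31.agreeN_mono (by simp [H31.dep]) hA)]
    exact hb

theorem agreeN_symm {D D' : Dat V M} {h h' : V → ZMod M} (n : ℕ) : ∀ {x : V},
    AgreeN D D' h h' n x → AgreeN D' D h' h n x := by
  have hs : ∀ {x : V}, Agree D D' h h' x → Agree D' D h' h x := fun H =>
    ⟨H.s.symm, H.I.symm, H.i1.symm, H.i2.symm, fun y => ⟨(H.R y).1.symm, (H.R y).2.symm⟩,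
      fun y => ⟨(H.O y).1.symm, (H.O y).2.symm⟩, fun y => ⟨(H.β y).1.symm, (H.β y).2.symm⟩,
      ⟨H.f.1.symm, H.f.2.symm⟩, H.h.symm⟩
  induction n with
  | zero => intro x H; exact hs H
  | succ n ih =>
    intro x H
    refine ⟨hs H.1, fun y hy => ih (H.2 y ?_)⟩
    rcases hy with hy | hy | hy | hy
    · exact Or.inl ((H.1.R y).1.2 hy)
    · exact Or.inr (Or.inl ((H.1.R y).2.2 hy))
    · exact Or.inr (Or.inr (Or.inl ((H.1.O y).1.2 hy)))
    · exact Or.inr (Or.inr (Or.inr ((H.1.O y).2.2 hy)))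

theorem bgood_of (loc : LOCStmt) {cc : ℝ} {k s q : ℕ} (X : BIn V M) {H H' : V → Fin 40 → ZMod M} {x : V}
    (h : Agr X.E H H' 9 x) (hb : BGood cc k s q X H x) : BGood cc k s q X H' x := by
  have h2 : Agr X.E H H' 2 x := h.mono (by norm_num)
  have h1 : Agr X.E H H' 1 x := h.mono (by norm_num)
  have hN : ∀ g d, AgreeN (X.dat s H' g d) (X.dat s H g d) (lab H' g) (lab H g) 8 x :=
    fun g d => agreeN_dat X s g d 8 h.symm'
  refine ⟨?_, ?_, ?_, ?_, ?_⟩
  · intro g d hd hbad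
    exact hb.wp g d hd (badW_of loc (hN g d) hbad)
  · intro g d hd hbad
    exact hb.wm g d hd (badW_of loc (H31.agreeN_rev 8 (hN g d)) hbad)
  · intro g d hd
    exact hgood_of (OE X g) h2 (hb.hd g d hd)
  · intro g g' hg
    exact lgood_of (RE X) (OE X g') h2 (hb.lf g g' hg)
  · rw [← outN_Rg (RE X) 40 h1]
    exact hb.zr

/-! ## the data of the hosts are admissible -/

theorem mem_outN (A : Set (V × V)) (x y : V) : y ∈ outN A x ↔ (x, y) ∈ A := by
  unfold outN; simp

theorem mem_inN (A : Set (V × V)) (x y : V) : y ∈ inN A x ↔ (y, x) ∈ A := by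
  unfold inN; simp

theorem trunc_abs (t : ℝ) : |trunc M t| ≤ M := by
  have hM : (0 : ℝ) ≤ M := Nat.cast_nonneg M
  unfold trunc
  rw [abs_le]
  constructor
  · exact le_max_left _ _
  · exact max_le (by linarith) (min_le_left _ _)

theorem two_mul_ne {d : ZMod M} (hd : d ≠ 0) : d ≠ 2 * d := by
  intro h
  apply hd
  have : 2 * d - d = 0 := by rw [← h]; ring
  calc d = 2 * d - d := by ring
    _ = 0 := this

theorem card_I {cc : ℝ} {X : BIn V M} {k s : ℕ} {k' : ℝ} {N : V → Finset V} (hX : X.Ok cc k s k' N)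
    {d : ZMod M} (hd : d ∈ X.B) : 2 ≤ (X.I d).card ∧ (X.I d).card ≤ 3 := by
  obtain ⟨h1, h2⟩ := hX.B0 d hd
  have h3 := two_mul_ne h1
  rcases h2 with h2 | h2
  · rw [h2, Finset.card_pair h3]
    exact ⟨le_rfl, by norm_num⟩
  · rw [h2]
    refine ⟨?_, Finset.card_le_three⟩
    calc 2 = ({d, 2 * d} : Finset (ZMod M)).card := (Finset.card_pair h3).symm
      _ ≤ _ := by
        apply Finset.card_le_card
        intro a ha
        simp only [Finset.mem_insert, Finset.mem_singleton] at ha ⊢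
        tauto

theorem dok_dat {cc : ℝ} {k s : ℕ} {k' : ℝ} {N : V → Finset V} {X : BIn V M} (hX : X.Ok cc k s k' N)
    (H : V → Fin 40 → ZMod M) (g : Fin 40) {d : ZMod M} (hd : d ∈ X.B) :
    DOk k (X.dat s H g d) := by
  obtain ⟨h1, h2⟩ := hX.B0 d hd
  have hRE : (X.dat s H g d).R ⊆ X.E := fun p hp => RE X hp.1
  have hOE : (X.dat s H g d).O ⊆ X.E := OE X g
  have hNb : ∀ x y, y ∈ Nb (X.dat s H g d) x → y ∈ N x := by
    intro x y hy
    unfold Nb at hy
    simp only [Finset.mem_filter, Finset.mem_univ, true_and] at hy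
    rcases hy with hy | hy | hy | hy
    · exact hX.sub _ (hRE hy)
    · exact hX.nbd.symm _ _ (hX.sub _ (hRE hy))
    · exact hX.sub _ (hOE hy)
    · exact hX.nbd.symm _ _ (hX.sub _ (hOE hy))
  refine ⟨⟨?_, ?_, ?_⟩, ?_, hX.reg g, ?_, ?_, ?_, ?_, (card_I hX hd).2, fun x y => hX.β g x y,
    fun x => trunc_abs _, fun x => trunc_abs _⟩
  · intro u v hv
    unfold Nb at hv ⊢
    simp only [Finset.mem_filter, Finset.mem_univ, true_and] at hv ⊢
    tauto
  · intro u hu
    exact hX.nbd.irr u (hNb u u hu)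
  · intro u v huv
    refine le_trans (Finset.card_le_card ?_) (hX.nbd.c4 u v huv)
    intro w hw
    rw [Finset.mem_inter] at hw ⊢
    exact ⟨hNb _ _ hw.1, hNb _ _ hw.2⟩
  · intro x
    refine ⟨le_trans (Finset.card_le_card ?_) (hX.deg x).1,
      le_trans (Finset.card_le_card ?_) (hX.deg x).2⟩
    · intro y hy
      rw [mem_outN] at hy ⊢
      exact hRE hy
    · intro y hy
      rw [mem_inN] at hy ⊢
      exact hRE hy
  · exact Disjoint.mono_left (fun p hp => hp.1) (hX.dRO g)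
  · show d ∈ X.I d
    rcases h2 with h2 | h2 <;> rw [h2] <;> simp
  · show 2 * d ∈ X.I d
    rcases h2 with h2 | h2 <;> rw [h2] <;> simp
  · exact two_mul_ne h1

theorem dok_rev {k : ℕ} {D : Dat V M} (h : DOk k D) : DOk k D.rev := by
  have hNb : Nb D.rev = Nb D := by
    funext x
    unfold Nb
    ext y
    simp only [Finset.mem_filter, Finset.mem_univ, true_and]
    show ((y, x) ∈ D.R ∨ (x, y) ∈ D.R ∨ (y, x) ∈ D.O ∨ (x, y) ∈ D.O) ↔ _
    tauto
  have ho : ∀ (A : Set (V × V)) x, outN (Prod.swap ⁻¹' A) x = inN A x := by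
    intro A x
    ext y
    rw [mem_outN, mem_inN]
    rfl
  have hi : ∀ (A : Set (V × V)) x, inN (Prod.swap ⁻¹' A) x = outN A x := by
    intro A x
    ext y
    rw [mem_outN, mem_inN]
    rfl
  refine ⟨by rw [hNb]; exact h.nbd, ?_, ?_, ?_, h.I1, h.I2, h.I12, h.I3,
    fun x y => h.β y x, h.fm, h.fp⟩
  · intro x
    show (outN (Prod.swap ⁻¹' D.R) x).card ≤ k ∧ (inN (Prod.swap ⁻¹' D.R) x).card ≤ k
    rw [ho, hi]
    exact (h.dR x).symm
  · intro x
    show |((outN (Prod.swap ⁻¹' D.O) x).card : ℝ) - D.s| ≤ D.s * (k : ℝ) ^ (-0.4 : ℝ) ∧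
      |((inN (Prod.swap ⁻¹' D.O) x).card : ℝ) - D.s| ≤ D.s * (k : ℝ) ^ (-0.4 : ℝ)
    rw [ho, hi]
    exact (h.dO x).symm
  · exact Disjoint.preimage _ h.disj

/-! ## one coordinate of the labels -/

theorem lab_repl (g : Fin 40) (H : V → Fin 40 → ZMod M) (h : V → ZMod M) :
    lab (repl g H h) g = h := by
  funext v
  unfold lab repl
  simp

theorem dat_repl (X : BIn V M) (s : ℕ) (g : Fin 40) (H : V → Fin 40 → ZMod M)
    (h : V → ZMod M) (d : ZMod M) : X.dat s (repl g H h) g d = X.dat s H g d := by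
  have hR : Rg X.R (repl g H h) g = Rg X.R H g := by
    ext p
    unfold Rg
    simp only [Set.mem_ofPred_eq]
    apply and_congr Iff.rfl
    apply forall_congr'
    intro i
    constructor
    · intro h1 hi
      have := h1 hi
      unfold repl at this
      have hne : i ≠ g := by rintro rfl; exact lt_irrefl _ hi
      simpa [hne] using this
    · intro h1 hi
      have := h1 hi
      unfold repl
      have hne : i ≠ g := by rintro rfl; exact lt_irrefl _ hi
      simpa [hne] using this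
  have hp : ∀ x, X.fp (repl g H h) g d x = X.fp H g d x := by
    intro x; unfold BIn.fp; rw [hR]
  have hm : ∀ x, X.fm (repl g H h) g d x = X.fm H g d x := by
    intro x; unfold BIn.fm; rw [hR]
  unfold BIn.dat
  rw [hR]
  congr 1
  · funext x; rw [hp]
  · funext x; rw [hm]

theorem card_neg [NeZero M] (P : (V → ZMod M) → Prop) :
    (univ.filter fun h : V → ZMod M => P (-h)).card = (univ.filter fun h => P h).card := by
  apply Finset.card_bij (fun h _ => -h)
  · intro h hh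
    simpa using hh
  · intro a _ b _ hab
    simpa using hab
  · intro b hb
    exact ⟨-b, by simpa using hb, by simp⟩

/-! ## probabilities -/

theorem pr_card {β : Type} [Fintype β] [Nonempty β] (P : (V → β) → Prop) :
    LLLA.Pr (α := fun _ : V => β) (LLLA.unif V β) {ω | P ω} =
      ((univ.filter fun ω : V → β => P ω).card : ℝ) / Fintype.card (V → β) := by
  unfold LLLA.Pr
  have h1 : ∀ ω : V → β, Set.indicator {ω | P ω}
      (LLLA.wt (α := fun _ : V => β) (LLLA.unif V β)) ω =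
      if P ω then 1 / (Fintype.card (V → β) : ℝ) else 0 := by
    intro ω
    by_cases h : P ω
    · rw [Set.indicator_of_mem (show ω ∈ {ω | P ω} from h), if_pos h]
      unfold LLLA.wt LLLA.unif
      rw [Finset.prod_const, Finset.card_univ, Fintype.card_fun, one_div, one_div, inv_pow]
      push_cast
      rfl
    · rw [Set.indicator_of_notMem (show ω ∉ {ω | P ω} from h), if_neg h]
  rw [Finset.sum_congr rfl fun ω _ => h1 ω, ← Finset.sum_filter, Finset.sum_const, nsmul_eq_mul]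
  ring

theorem bad_count (mrg : MRGStmt) {cc : ℝ} {k s q : ℕ} [NeZero M]
    (X : BIn V M) (x : V) (hkM : (M : ℝ) ≤ k) (hk2 : 2 ≤ k)
    (hs : ∀ (H : V → Fin 40 → ZMod M) (g : Fin 40), ∀ d ∈ X.B,
      ((univ.filter fun h : V → ZMod M => BadW k q (X.dat s H g d) h x).card : ℝ) ≤
      (k : ℝ) ^ (-40 : ℝ) * (M : ℝ) ^ Fintype.card V)
    (hs' : ∀ (H : V → Fin 40 → ZMod M) (g : Fin 40), ∀ d ∈ X.B,
      ((univ.filter fun h : V → ZMod M => BadW k q (X.dat s H g d).rev h x).card : ℝ) ≤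
      (k : ℝ) ^ (-40 : ℝ) * (M : ℝ) ^ Fintype.card V)
    (hh : ∀ (g : Fin 40), ∀ d ∈ X.B,
      ((univ.filter fun h : V → ZMod M => ¬ HGood cc k M s (X.O g) (X.I d) (X.Zp g d) (X.Zm g d)
        h x).card : ℝ) ≤ (k : ℝ) ^ (-40 : ℝ) * (M : ℝ) ^ Fintype.card V)
    (hl : ∀ (g g' : Fin 40), ((univ.filter fun H : V → Fin 40 → ZMod M =>
        ¬ LGood k s X.R (X.O g') H g x).card : ℝ) ≤
      (k : ℝ) ^ (-40 : ℝ) * Fintype.card (V → Fin 40 → ZMod M))
    (hz : ((univ.filter fun H : V → Fin 40 → ZMod M =>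
        (outN (Rg X.R H 40) x).Nonempty).card : ℝ) ≤
      (k : ℝ) ^ (-20 : ℝ) * Fintype.card (V → Fin 40 → ZMod M)) :
    ((univ.filter fun H : V → Fin 40 → ZMod M => ¬ BGood cc k s q X H x).card : ℝ) ≤
      2 * (k : ℝ) ^ (-20 : ℝ) * Fintype.card (V → Fin 40 → ZMod M) := by
  have hk0 : (0 : ℝ) < k := by
    have : (2 : ℝ) ≤ k := by exact_mod_cast hk2
    linarith
  set T : ℝ := ((Fintype.card (V → Fin 40 → ZMod M) : ℕ) : ℝ) with hT
  have hT0 : 0 ≤ T := Nat.cast_nonneg _
  have hMc : (Fintype.card (ZMod M) : ℝ) = M := by rw [ZMod.card]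
  -- the pieces
  have c1 : ∀ (g : Fin 40), ∀ d ∈ X.B, ((univ.filter fun H : V → Fin 40 → ZMod M =>
      BadW k q (X.dat s H g d) (lab H g) x).card : ℝ) ≤ (k : ℝ) ^ (-40 : ℝ) * T := by
    intro g d hd
    apply mrg V (ZMod M) 40 g _ _ (by positivity)
    intro H
    rw [hMc]
    refine le_trans (le_of_eq ?_) (hs H g d hd)
    congr 2
    ext h
    simp only [Finset.mem_filter, Finset.mem_univ, true_and]
    rw [dat_repl, lab_repl]
  have c2 : ∀ (g : Fin 40), ∀ d ∈ X.B, ((univ.filter fun H : V → Fin 40 → ZMod M =>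
      BadW k q (X.dat s H g d).rev (-lab H g) x).card : ℝ) ≤ (k : ℝ) ^ (-40 : ℝ) * T := by
    intro g d hd
    apply mrg V (ZMod M) 40 g _ _ (by positivity)
    intro H
    rw [hMc]
    refine le_trans (le_of_eq ?_) (hs' H g d hd)
    rw [← card_neg]
    congr 2
    ext h
    simp only [Finset.mem_filter, Finset.mem_univ, true_and]
    rw [dat_repl, lab_repl]
  have c3 : ∀ (g : Fin 40), ∀ d ∈ X.B, ((univ.filter fun H : V → Fin 40 → ZMod M =>
      ¬ HGood cc k M s (X.O g) (X.I d) (X.Zp g d) (X.Zm g d) (lab H g) x).card : ℝ) ≤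
      (k : ℝ) ^ (-40 : ℝ) * T := by
    intro g d hd
    apply mrg V (ZMod M) 40 g _ _ (by positivity)
    intro H
    rw [hMc]
    refine le_trans (le_of_eq ?_) (hh g d hd)
    congr 2
    ext h
    simp only [Finset.mem_filter, Finset.mem_univ, true_and]
    rw [lab_repl]
  -- the union
  have hsub : (univ.filter fun H : V → Fin 40 → ZMod M => ¬ BGood cc k s q X H x) ⊆
      ((((univ ×ˢ X.B).biUnion fun a : Fin 40 × ZMod M => univ.filter fun H =>
        BadW k q (X.dat s H a.1 a.2) (lab H a.1) x) ∪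
      ((univ ×ˢ X.B).biUnion fun a : Fin 40 × ZMod M => univ.filter fun H =>
        BadW k q (X.dat s H a.1 a.2).rev (-lab H a.1) x)) ∪
      ((univ ×ˢ X.B).biUnion fun a : Fin 40 × ZMod M => univ.filter fun H =>
        ¬ HGood cc k M s (X.O a.1) (X.I a.2) (X.Zp a.1 a.2) (X.Zm a.1 a.2) (lab H a.1) x)) ∪
      (((univ : Finset (Fin 40 × Fin 40)).biUnion fun a => univ.filter fun H =>
        ¬ LGood k s X.R (X.O a.2) H a.1 x) ∪
      (univ.filter fun H => (outN (Rg X.R H 40) x).Nonempty)) := by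
    intro H hH
    rw [Finset.mem_filter] at hH
    by_contra hcon
    simp only [Finset.mem_union, Finset.mem_biUnion, Finset.mem_product, Finset.mem_univ,
      true_and, Finset.mem_filter, not_or, not_exists, not_and, not_not] at hcon
    obtain ⟨⟨⟨h1, h2⟩, h3⟩, h4, h5⟩ := hcon
    apply hH.2
    refine ⟨fun g d hd => h1 (g, d) hd, fun g d hd => h2 (g, d) hd, fun g d hd => h3 (g, d) hd,
      fun g g' _ => h4 (g, g'), ?_⟩
    rw [← Finset.not_nonempty_iff_eq_empty]
    exact h5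
  have hB : (((univ : Finset (Fin 40)) ×ˢ X.B).card : ℝ) ≤ 40 * k := by
    rw [Finset.card_product, Finset.card_univ, Fintype.card_fin]
    push_cast
    have h1 : (X.B.card : ℝ) ≤ M := by
      rw [← hMc]
      exact_mod_cast Finset.card_le_univ _
    nlinarith
  have hu : ∀ (ι : Type) (A : Finset ι) (F : ι → Finset (V → Fin 40 → ZMod M)) (b : ℝ),
      (∀ a ∈ A, ((F a).card : ℝ) ≤ b) → ((A.biUnion F).card : ℝ) ≤ A.card * b := by
    intro ι A F b hb
    calc ((A.biUnion F).card : ℝ) ≤ ((∑ a ∈ A, (F a).card : ℕ) : ℝ) := by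
          exact_mod_cast Finset.card_biUnion_le
      _ = ∑ a ∈ A, ((F a).card : ℝ) := by push_cast; rfl
      _ ≤ ∑ a ∈ A, b := Finset.sum_le_sum hb
      _ = A.card * b := by rw [Finset.sum_const, nsmul_eq_mul]
  have hk40 : 0 ≤ (k : ℝ) ^ (-40 : ℝ) * T := by positivity
  have d1 := hu (Fin 40 × ZMod M) (univ ×ˢ X.B) (fun a => univ.filter fun H =>
        BadW k q (X.dat s H a.1 a.2) (lab H a.1) x) _ (fun a ha =>
          c1 a.1 a.2 (Finset.mem_product.1 ha).2)
  have d2 := hu (Fin 40 × ZMod M) (univ ×ˢ X.B) (fun a => univ.filter fun H =>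
        BadW k q (X.dat s H a.1 a.2).rev (-lab H a.1) x) _ (fun a ha =>
          c2 a.1 a.2 (Finset.mem_product.1 ha).2)
  have d3 := hu (Fin 40 × ZMod M) (univ ×ˢ X.B) (fun a => univ.filter fun H =>
        ¬ HGood cc k M s (X.O a.1) (X.I a.2) (X.Zp a.1 a.2) (X.Zm a.1 a.2) (lab H a.1) x) _
        (fun a ha => c3 a.1 a.2 (Finset.mem_product.1 ha).2)
  have d4 := hu (Fin 40 × Fin 40) univ (fun a => univ.filter fun H =>
        ¬ LGood k s X.R (X.O a.2) H a.1 x) _ (fun a _ => hl a.1 a.2)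
  have hc4 : ((univ : Finset (Fin 40 × Fin 40)).card : ℝ) = 1600 := by
    rw [Finset.card_univ, Fintype.card_prod, Fintype.card_fin]
    norm_num
  rw [hc4] at d4
  have tot : ((univ.filter fun H : V → Fin 40 → ZMod M => ¬ BGood cc k s q X H x).card : ℝ) ≤
      (((univ : Finset (Fin 40)) ×ˢ X.B).card * ((k : ℝ) ^ (-40 : ℝ) * T) +
        ((univ : Finset (Fin 40)) ×ˢ X.B).card * ((k : ℝ) ^ (-40 : ℝ) * T) +
        ((univ : Finset (Fin 40)) ×ˢ X.B).card * ((k : ℝ) ^ (-40 : ℝ) * T)) +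
        (1600 * ((k : ℝ) ^ (-40 : ℝ) * T) + (k : ℝ) ^ (-20 : ℝ) * T) := by
    have h1 := Finset.card_le_card hsub
    have h2 : ((univ.filter fun H : V → Fin 40 → ZMod M => ¬ BGood cc k s q X H x).card : ℝ) ≤
        _ := Nat.cast_le.2 h1
    refine h2.trans ?_
    refine (Nat.cast_le.2 (Finset.card_union_le _ _)).trans ?_
    push_cast
    apply add_le_add
    · refine (Nat.cast_le.2 (Finset.card_union_le _ _)).trans ?_
      push_cast
      apply add_le_add _ d3
      refine (Nat.cast_le.2 (Finset.card_union_le _ _)).trans ?_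
      push_cast
      exact add_le_add d1 d2
    · refine (Nat.cast_le.2 (Finset.card_union_le _ _)).trans ?_
      push_cast
      exact add_le_add d4 hz
  refine tot.trans ?_
  -- numbers
  have e40 : (k : ℝ) ^ (-40 : ℝ) = 1 / (k : ℝ) ^ 40 := by
    rw [show (-40 : ℝ) = -((40 : ℕ) : ℝ) by norm_num, Real.rpow_neg hk0.le, Real.rpow_natCast,
      one_div]
  have e20 : (k : ℝ) ^ (-20 : ℝ) = 1 / (k : ℝ) ^ 20 := by
    rw [show (-20 : ℝ) = -((20 : ℕ) : ℝ) by norm_num, Real.rpow_neg hk0.le, Real.rpow_natCast,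
      one_div]
  have hk2' : (2 : ℝ) ≤ k := by exact_mod_cast hk2
  have hnum : 120 * (k : ℝ) * (1 / (k : ℝ) ^ 40) + 1600 * (1 / (k : ℝ) ^ 40) ≤
      1 / (k : ℝ) ^ 20 := by
    have hp : (2 : ℝ) ^ 19 ≤ (k : ℝ) ^ 19 := pow_le_pow_left₀ (by norm_num) hk2' 19
    have h1 : 120 * (k : ℝ) + 1600 ≤ (k : ℝ) ^ 20 := by
      have : (k : ℝ) ^ 20 = (k : ℝ) ^ 19 * k := by ring
      rw [this]
      nlinarith
    rw [← sub_nonneg]
    have h2 : 1 / (k : ℝ) ^ 20 - (120 * (k : ℝ) * (1 / (k : ℝ) ^ 40) +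
        1600 * (1 / (k : ℝ) ^ 40)) = ((k : ℝ) ^ 20 - (120 * (k : ℝ) + 1600)) / (k : ℝ) ^ 40 := by
      field_simp
    rw [h2]
    exact div_nonneg (by linarith) (by positivity)
  have h3 : (((univ : Finset (Fin 40)) ×ˢ X.B).card : ℝ) * ((k : ℝ) ^ (-40 : ℝ) * T) ≤
      40 * k * ((k : ℝ) ^ (-40 : ℝ) * T) := mul_le_mul_of_nonneg_right hB hk40
  rw [e40] at h3 ⊢
  rw [e20]
  have h4 := mul_le_mul_of_nonneg_right hnum hT0
  nlinarith

/-! ## LLA -/

theorem lla (loc : LOCStmt) (mrg : MRGStmt) (hdg : HDGStmt) (lft : LFTStmt) (zro : ZROStmt)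
    (siz : SIZStmt) : LLAStmt := by
  intro cc hcc0 hcc1
  obtain ⟨k1, hdg⟩ := hdg cc hcc0 hcc1
  obtain ⟨k2, lft⟩ := lft
  obtain ⟨k3, zro⟩ := zro
  obtain ⟨k4, siz⟩ := siz
  refine ⟨k1 + k2 + k3 + k4 + 100000, ?_⟩
  intro k M s q _ _ hk hpar V _ N k' X hX
  have hkR : (100000 : ℝ) ≤ k := by
    have : 100000 ≤ k := by omega
    exact_mod_cast this
  have hk0 : (0 : ℝ) < k := by linarith
  have hk1 : (1 : ℝ) ≤ k := by linarith
  have hMk : (M : ℝ) ≤ k := by
    refine hpar.Mhi.trans ?_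
    calc (k : ℝ) ^ (0.54 : ℝ) ≤ (k : ℝ) ^ (1 : ℝ) :=
          Real.rpow_le_rpow_of_exponent_le hk1 (by norm_num)
      _ = k := Real.rpow_one _
  have hdeg : ∀ x, (univ.filter fun y => Adj X.E x y).card ≤ 2 * k := by
    intro x
    have h1 : (univ.filter fun y => Adj X.E x y) ⊆ outN X.E x ∪ inN X.E x := by
      intro y hy
      rw [Finset.mem_union, mem_outN, mem_inN]
      simpa [Adj] using hy
    have h2 := hX.deg x
    have h3 := Finset.card_le_card h1
    have h4 := Finset.card_union_le (outN X.E x) (inN X.E x)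
    omega
  have hsubN : ∀ {A : Set (V × V)}, A ⊆ X.E → ∀ p ∈ A, p.2 ∈ N p.1 := fun hA p hp =>
    hX.sub p (hA hp)
  have hcard : ∀ {A : Set (V × V)}, A ⊆ X.E → ∀ x, (outN A x).card ≤ k ∧
      (inN A x).card ≤ k := by
    intro A hA x
    refine ⟨(Finset.card_le_card ?_).trans (hX.deg x).1,
      (Finset.card_le_card ?_).trans (hX.deg x).2⟩
    · intro y hy
      rw [mem_outN] at hy ⊢
      exact hA hy
    · intro y hy
      rw [mem_inN] at hy ⊢
      exact hA hy
  have hbad : ∀ x, ((univ.filter fun H : V → Fin 40 → ZMod M =>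
      ¬ BGood cc k s q X H x).card : ℝ) ≤
      2 * (k : ℝ) ^ (-20 : ℝ) * Fintype.card (V → Fin 40 → ZMod M) := by
    intro x
    apply bad_count mrg X x hMk (by omega)
    · intro H g d hd
      exact siz k M s q (by omega) hpar V (X.dat s H g d) rfl (dok_dat hX H g hd) x
    · intro H g d hd
      exact siz k M s q (by omega) hpar V (X.dat s H g d).rev rfl
        (dok_rev (dok_dat hX H g hd)) x
    · intro g d hd
      exact hdg k M s q (by omega) hpar V N hX.nbd (X.O g) (hsubN (OE X g)) (hX.reg g)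
        (X.I d) (card_I hX hd).1 (card_I hX hd).2 _ _ (hX.Z g d hd) x
    · intro g g'
      exact lft k M s q (by omega) hpar V N hX.nbd X.R (X.O g') (hsubN (RE X))
        (hsubN (OE X g')) (fun x => ⟨(hcard (RE X) x).1, (hcard (RE X) x).2,
          (hcard (OE X g') x).1, (hcard (OE X g') x).2⟩) g x
    · refine zro k M s q (by omega) hpar V X.R ?_ x (hcard (RE X) x).1
      intro p hp h
      have h1 := hX.sub p (RE X hp)
      rw [← h] at h1
      exact hX.nbd.irr _ h1
  -- the local lemma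
  have hres := LLLA.plain_lll (W := V) (α := fun _ : V => Fin 40 → ZMod M) (VV := V)
    LLLA.unif_prob (fun x => {H | ¬ BGood cc k s q X H x}) (fun x => ball X.E 9 x) (by
      intro x H H' hHH
      have hA : Agr X.E H H' 9 x := fun z hz => hHH z ((mem_ball X.E 9 x z).2 hz)
      apply propext
      constructor
      · intro hb hg
        exact hb (bgood_of loc X hA.symm' hg)
      · intro hb hg
        exact hb (bgood_of loc X hA hg)) (2 * (k : ℝ) ^ (-20 : ℝ)) ((2 * (k : ℝ) + 1) ^ 18)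
    (by positivity) ?_ ?_ ?_ ?_
  · obtain ⟨H, hH⟩ := hres
    refine ⟨H, fun x => ?_⟩
    have := hH x
    simpa using this
  · -- `8 k^(-20) (2k+1)^18 ≤ 1`
    have e20 : (k : ℝ) ^ (-20 : ℝ) = 1 / (k : ℝ) ^ 20 := by
      rw [show (-20 : ℝ) = -((20 : ℕ) : ℝ) by norm_num, Real.rpow_neg hk0.le,
        Real.rpow_natCast, one_div]
    rw [e20]
    have h1 : (2 * (k : ℝ) + 1) ^ 18 ≤ (3 * k) ^ 18 :=
      pow_le_pow_left₀ (by linarith) (by linarith) 18
    have h2 : (3 * (k : ℝ)) ^ 18 = 387420489 * k ^ 18 := by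
      rw [mul_pow]; norm_num
    have h3 : (8 * 387420489 : ℝ) ≤ k ^ 2 := by nlinarith
    have h4 : 4 * (2 * (1 / (k : ℝ) ^ 20)) * (2 * (k : ℝ) + 1) ^ 18 =
        8 * (2 * (k : ℝ) + 1) ^ 18 / k ^ 20 := by ring
    rw [h4, div_le_one (by positivity)]
    calc 8 * (2 * (k : ℝ) + 1) ^ 18 ≤ 8 * (387420489 * (k : ℝ) ^ 18) := by
          rw [← h2]; linarith
      _ = (8 * 387420489) * (k : ℝ) ^ 18 := by ring
      _ ≤ (k : ℝ) ^ 2 * (k : ℝ) ^ 18 := mul_le_mul_of_nonneg_right h3 (by positivity)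
      _ = (k : ℝ) ^ 20 := by ring
  · have e20 : (k : ℝ) ^ (-20 : ℝ) = 1 / (k : ℝ) ^ 20 := by
      rw [show (-20 : ℝ) = -((20 : ℕ) : ℝ) by norm_num, Real.rpow_neg hk0.le,
        Real.rpow_natCast, one_div]
    rw [e20]
    have h1 : (8 : ℝ) ≤ (k : ℝ) ^ 20 := by
      calc (8 : ℝ) ≤ (k : ℝ) := by linarith
        _ ≤ (k : ℝ) ^ 20 := le_self_pow₀ hk1 (by norm_num)
    rw [mul_one_div, div_le_div_iff₀ (by positivity) (by norm_num)]
    linarith
  · intro x
    rw [pr_card (fun H => ¬ BGood cc k s q X H x)]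
    have hpos : (0 : ℝ) < Fintype.card (V → Fin 40 → ZMod M) := by
      exact_mod_cast Fintype.card_pos
    rw [div_le_iff₀ hpos]
    refine le_trans (le_of_eq ?_) (hbad x)
    apply congrArg
    apply congrArg
    ext H
    simp only [Finset.mem_filter]
  · intro x
    have h1 : (univ.filter fun v' => (ball X.E 9 x ∩ ball X.E 9 v').Nonempty) ⊆
        ball X.E 18 x := by
      intro v' hv'
      simp only [Finset.mem_filter, Finset.mem_univ, true_and] at hv'
      obtain ⟨z, hz⟩ := hv'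
      rw [Finset.mem_inter, mem_ball, mem_ball] at hz
      rw [mem_ball]
      exact rch_trans X.E 9 9 hz.1 (rch_symm X.E 9 hz.2)
    have h2 := card_ball X.E (2 * k) hdeg 18 x
    have h3 := (Finset.card_le_card h1).trans h2
    calc ((univ.filter fun v' => (ball X.E 9 x ∩ ball X.E 9 v').Nonempty).card : ℝ) ≤
        (((2 * k + 1) ^ 18 : ℕ) : ℝ) := by exact_mod_cast h3
      _ = _ := by push_cast; ring

end Pool.Agent.C4W.H82
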