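import Pool.Agent.Helper53_C4W.Stm

/-!
# PSH: exact fractional rows and columns
-/

set_option autoImplicit false
set_option linter.unusedSectionVars false

open scoped BigOperators Classical

noncomputable section

namespace Pool.Agent.C4W.H82

open Finset

variable {V : Type} [Fintype V]

/-- number of arcs from `Z` into `y` -/
def kk (F : Finset (V × V)) (Z : Finset V) (y : V) : ℕ :=
  (F.filter fun e => e.2 = y ∧ e.1 ∈ Z).card

/-- the set of tails into `y` -/
def inN (F : Finset (V × V)) (y : V) : Finset V := univ.filter fun x => (x, y) ∈ F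

theorem ow_eq (F : Finset (V × V)) (w : V × V → ℝ) (x : V) :
    ow F w x = ∑ y ∈ univ.filter (fun y => (x, y) ∈ F), w (x, y) := by
  unfold ow
  refine Finset.sum_bij' (fun e _ => e.2) (fun y _ => (x, y)) ?_ ?_ ?_ ?_ ?_
  · rintro ⟨a, b⟩ h
    rw [Finset.mem_filter] at h
    obtain ⟨h1, h2⟩ := h
    simp only at h2
    subst h2
    simpa using h1
  · intro y h
    simpa using h
  · rintro ⟨a, b⟩ h
    rw [Finset.mem_filter] at h
    obtain ⟨h1, h2⟩ := h
    simp only at h2
    subst h2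
    rfl
  · intro y _
    rfl
  · rintro ⟨a, b⟩ h
    rw [Finset.mem_filter] at h
    obtain ⟨h1, h2⟩ := h
    simp only at h2
    subst h2
    rfl

theorem iw_eq (F : Finset (V × V)) (w : V × V → ℝ) (y : V) :
    iw F w y = ∑ x ∈ inN F y, w (x, y) := by
  unfold iw inN
  refine Finset.sum_bij' (fun e _ => e.1) (fun x _ => (x, y)) ?_ ?_ ?_ ?_ ?_
  · rintro ⟨a, b⟩ h
    rw [Finset.mem_filter] at h
    obtain ⟨h1, h2⟩ := h
    simp only at h2
    subst h2
    simpa using h1
  · intro x h
    simpa using h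
  · rintro ⟨a, b⟩ h
    rw [Finset.mem_filter] at h
    obtain ⟨h1, h2⟩ := h
    simp only at h2
    subst h2
    rfl
  · intro x _
    rfl
  · rintro ⟨a, b⟩ h
    rw [Finset.mem_filter] at h
    obtain ⟨h1, h2⟩ := h
    simp only at h2
    subst h2
    rfl

theorem od_eq (F : Finset (V × V)) (x : V) :
    od F x = (univ.filter fun y => (x, y) ∈ F).card := by
  have h := ow_eq F (fun _ => (1 : ℝ)) x
  unfold ow at h
  simp only [Finset.sum_const, nsmul_eq_mul, mul_one] at h
  unfold od
  exact_mod_cast h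

theorem idg_eq (F : Finset (V × V)) (y : V) : idg F y = (inN F y).card := by
  have h := iw_eq F (fun _ => (1 : ℝ)) y
  unfold iw at h
  simp only [Finset.sum_const, nsmul_eq_mul, mul_one] at h
  unfold idg
  exact_mod_cast h

theorem kk_eq (F : Finset (V × V)) (Z : Finset V) (y : V) :
    kk F Z y = ((inN F y).filter fun x => x ∈ Z).card := by
  unfold kk inN
  refine Finset.card_bij' (fun e _ => e.1) (fun x _ => (x, y)) ?_ ?_ ?_ ?_
  · rintro ⟨a, b⟩ h
    rw [Finset.mem_filter] at h
    obtain ⟨h1, h2, h3⟩ := h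
    simp only at h2 h3
    subst h2
    simp [h1, h3]
  · intro x h
    simpa using h
  · rintro ⟨a, b⟩ h
    rw [Finset.mem_filter] at h
    obtain ⟨h1, h2, h3⟩ := h
    simp only at h2
    subst h2
    rfl
  · intro x _
    rfl

theorem m2p_eq (F : Finset (V × V)) (Z : Finset V) (x : V) (hx : x ∉ Z) :
    m2p F Z x = ∑ y ∈ univ.filter (fun y => (x, y) ∈ F), kk F Z y := by
  unfold m2p
  rw [Finset.card_eq_sum_card_fiberwise (f := fun p : V × V => p.1)
    (t := univ.filter (fun y => (x, y) ∈ F))]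
  · apply Finset.sum_congr rfl
    intro y hy
    rw [kk_eq]
    refine Finset.card_bij' (fun p _ => p.2) (fun u _ => (y, u)) ?_ ?_ ?_ ?_
    · rintro ⟨a, b⟩ h
      simp only [Finset.mem_filter, Finset.mem_univ, true_and] at h
      obtain ⟨⟨h1, h2, h3, h4⟩, h5⟩ := h
      subst h5
      simp [inN, h2, h3]
    · intro u h
      simp only [inN, Finset.mem_filter, Finset.mem_univ, true_and] at h hy ⊢
      refine ⟨⟨hy, h.1, h.2, ?_⟩, trivial⟩
      rintro rfl
      exact hx h.2
    · rintro ⟨a, b⟩ h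
      simp only [Finset.mem_filter, Finset.mem_univ, true_and] at h
      rw [← h.2]
    · intro u _
      rfl
  · rintro ⟨a, b⟩ h
    simp only [Finset.coe_filter, Finset.mem_univ, true_and, Set.mem_ofPred_eq] at h ⊢
    exact h.1

/-- pushes of row errors along 2-paths -/
theorem push_rows (F : Finset (V × V)) (Z : Finset V) (e : V → ℝ) (z D K : ℝ)
    (hz : 0 < z) (hD : 1 ≤ D) (hK : K ≤ D)
    (dp : ∀ x, (od F x : ℝ) ≤ 2 * D) (dm : ∀ y, (idg F y : ℝ) ≤ 2 * D)
    (mp : ∀ x, 9 / 10 * (D ^ 2 * z) ≤ m2p F Z x)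
    (kp : ∀ y, (kk F Z y : ℝ) ≤ K) (he : ∀ x, x ∉ Z → |e x| ≤ z / 1000) :
    ∃ δ : V × V → ℝ, (∀ x, x ∉ Z → ow F δ x = - e x) ∧
      (∀ x, x ∈ Z → |ow F δ x| ≤ 4 / 900) ∧ (∀ y, iw F δ y = 0) ∧
      ∀ a ∈ F, |δ a| ≤ 3 / 900 := by
  have hD0 : 0 < D := by linarith
  -- the size of one push
  let ε : V → ℝ := fun x => if x ∈ Z then 0 else e x / m2p F Z x
  have hm : ∀ x, 0 < (m2p F Z x : ℝ) := fun x =>
    lt_of_lt_of_le (by positivity) (mp x)
  have hε : ∀ x, |ε x| ≤ 1 / (900 * D ^ 2) := by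
    intro x
    simp only [ε]
    split_ifs with hx
    · rw [abs_zero]; positivity
    · rw [abs_div, abs_of_pos (hm x), div_le_div_iff₀ (hm x) (by positivity)]
      have h1 := he x hx
      have h2 := mp x
      have h3 : |e x| * (900 * D ^ 2) ≤ z / 1000 * (900 * D ^ 2) :=
        mul_le_mul_of_nonneg_right h1 (by positivity)
      calc |e x| * (900 * D ^ 2) ≤ z / 1000 * (900 * D ^ 2) := h3
        _ = 9 / 10 * (D ^ 2 * z) := by ring
        _ ≤ m2p F Z x := h2
        _ = 1 * m2p F Z x := by ring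
  let S : V → ℝ := fun y => ∑ x ∈ (inN F y).filter (fun x => x ∉ Z), ε x
  have hS : ∀ y, |S y| ≤ 2 * D / (900 * D ^ 2) := by
    intro y
    calc |S y| ≤ ∑ x ∈ (inN F y).filter (fun x => x ∉ Z), |ε x| := Finset.abs_sum_le_sum_abs _ _
      _ ≤ ∑ x ∈ (inN F y).filter (fun x => x ∉ Z), 1 / (900 * D ^ 2) :=
          Finset.sum_le_sum fun x _ => hε x
      _ = (((inN F y).filter (fun x => x ∉ Z)).card : ℝ) * (1 / (900 * D ^ 2)) := by
          rw [Finset.sum_const, nsmul_eq_mul]
      _ ≤ (2 * D) * (1 / (900 * D ^ 2)) := by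
          apply mul_le_mul_of_nonneg_right _ (by positivity)
          have h1 := dm y
          rw [idg_eq] at h1
          refine le_trans ?_ h1
          exact_mod_cast Finset.card_le_card (Finset.filter_subset _ _)
      _ = 2 * D / (900 * D ^ 2) := by ring
  refine ⟨fun a => if a.1 ∈ Z then S a.2 else - (ε a.1 * kk F Z a.2), ?_, ?_, ?_, ?_⟩
  · intro x hx
    rw [ow_eq]
    simp only [hx, if_false]
    rw [Finset.sum_neg_distrib, ← Finset.mul_sum]
    have h1 : (∑ y ∈ univ.filter (fun y => (x, y) ∈ F), (kk F Z y : ℝ)) = m2p F Z x := by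
      rw [m2p_eq F Z x hx]
      push_cast
      rfl
    rw [h1]
    simp only [ε, hx, if_false]
    rw [div_mul_cancel₀ _ (hm x).ne']
  · intro x hx
    rw [ow_eq]
    simp only [hx, if_true]
    calc |∑ y ∈ univ.filter (fun y => (x, y) ∈ F), S y| ≤
        ∑ y ∈ univ.filter (fun y => (x, y) ∈ F), |S y| := Finset.abs_sum_le_sum_abs _ _
      _ ≤ ∑ y ∈ univ.filter (fun y => (x, y) ∈ F), 2 * D / (900 * D ^ 2) :=
          Finset.sum_le_sum fun y _ => hS y
      _ = (od F x : ℝ) * (2 * D / (900 * D ^ 2)) := by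
          rw [Finset.sum_const, nsmul_eq_mul, od_eq]
      _ ≤ (2 * D) * (2 * D / (900 * D ^ 2)) :=
          mul_le_mul_of_nonneg_right (dp x) (by positivity)
      _ = 4 / 900 := by field_simp; norm_num
  · intro y
    rw [iw_eq, ← Finset.sum_filter_add_sum_filter_not (inN F y) (fun x => x ∈ Z)]
    have h1 : ∑ x ∈ (inN F y).filter (fun x => x ∈ Z),
        (if x ∈ Z then S y else - (ε x * kk F Z y)) = (kk F Z y : ℝ) * S y := by
      rw [Finset.sum_congr rfl (g := fun _ => S y), Finset.sum_const, nsmul_eq_mul, kk_eq]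
      intro x hx
      rw [if_pos (Finset.mem_filter.1 hx).2]
    have h2 : ∑ x ∈ (inN F y).filter (fun x => x ∉ Z),
        (if x ∈ Z then S y else - (ε x * kk F Z y)) = - ((kk F Z y : ℝ) * S y) := by
      simp only [S]
      rw [Finset.mul_sum, ← Finset.sum_neg_distrib]
      apply Finset.sum_congr rfl
      intro x hx
      rw [if_neg (Finset.mem_filter.1 hx).2]
      ring
    show ∑ x ∈ (inN F y).filter (fun x => x ∈ Z),
        (if x ∈ Z then S y else - (ε x * kk F Z y)) +
      ∑ x ∈ (inN F y).filter (fun x => x ∉ Z),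
        (if x ∈ Z then S y else - (ε x * kk F Z y)) = 0
    rw [h1, h2]
    ring
  · rintro ⟨x, y⟩ hxy
    show |if x ∈ Z then S y else - (ε x * kk F Z y)| ≤ 3 / 900
    have h1 : 2 * D / (900 * D ^ 2) ≤ 3 / 900 := by
      rw [div_le_div_iff₀ (by positivity) (by norm_num)]
      nlinarith
    split_ifs with hx
    · exact (hS y).trans h1
    · rw [abs_neg, abs_mul]
      have h2 : |(kk F Z y : ℝ)| ≤ D := by
        rw [abs_of_nonneg (Nat.cast_nonneg _)]
        exact (kp y).trans hK
      calc |ε x| * |(kk F Z y : ℝ)| ≤ 1 / (900 * D ^ 2) * D :=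
            mul_le_mul (hε x) h2 (abs_nonneg _) (by positivity)
        _ ≤ 3 / 900 := by
            rw [one_div_mul_eq_div, div_le_div_iff₀ (by positivity) (by norm_num)]
            nlinarith

/-- the reversed arcs -/
def sw (F : Finset (V × V)) : Finset (V × V) := F.map (Equiv.prodComm V V).toEmbedding

theorem mem_sw (F : Finset (V × V)) (x y : V) : (x, y) ∈ sw F ↔ (y, x) ∈ F := by
  unfold sw
  simp

theorem inN_sw (F : Finset (V × V)) (y : V) :
    inN (sw F) y = univ.filter fun x => (y, x) ∈ F := by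
  unfold inN
  ext x
  simp [mem_sw]

theorem od_sw (F : Finset (V × V)) (x : V) : od (sw F) x = idg F x := by
  rw [od_eq, idg_eq]
  congr 1
  ext y
  simp [mem_sw, inN]

theorem idg_sw (F : Finset (V × V)) (x : V) : idg (sw F) x = od F x := by
  rw [od_eq, idg_eq, inN_sw]

theorem ow_sw (F : Finset (V × V)) (w : V × V → ℝ) (x : V) :
    ow (sw F) w x = iw F (fun a => w (a.2, a.1)) x := by
  rw [ow_eq, iw_eq]
  apply Finset.sum_congr
  · ext y
    simp [mem_sw, inN]
  · intro y _
    rfl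

theorem iw_sw (F : Finset (V × V)) (w : V × V → ℝ) (x : V) :
    iw (sw F) w x = ow F (fun a => w (a.2, a.1)) x := by
  rw [ow_eq, iw_eq, inN_sw]

theorem kk_sw (F : Finset (V × V)) (Z : Finset V) (x : V) :
    kk (sw F) Z x = (F.filter fun e => e.1 = x ∧ e.2 ∈ Z).card := by
  unfold kk
  refine Finset.card_bij' (fun e _ => (e.2, e.1)) (fun e _ => (e.2, e.1)) ?_ ?_ ?_ ?_
  · rintro ⟨a, b⟩ h
    rw [Finset.mem_filter, mem_sw] at h
    rw [Finset.mem_filter]
    exact h
  · rintro ⟨a, b⟩ h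
    rw [Finset.mem_filter] at h
    rw [Finset.mem_filter, mem_sw]
    exact h
  · rintro ⟨a, b⟩ _
    rfl
  · rintro ⟨a, b⟩ _
    rfl

theorem m2p_sw (F : Finset (V × V)) (Z : Finset V) (x : V) :
    m2p (sw F) Z x = m2m F Z x := by
  unfold m2p m2m
  congr 1
  ext ⟨a, b⟩
  simp [mem_sw]

theorem ow_add (F : Finset (V × V)) (w w' : V × V → ℝ) (x : V) :
    ow F (fun a => w a + w' a) x = ow F w x + ow F w' x := by
  unfold ow; rw [Finset.sum_add_distrib]

theorem iw_add (F : Finset (V × V)) (w w' : V × V → ℝ) (x : V) :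
    iw F (fun a => w a + w' a) x = iw F w x + iw F w' x := by
  unfold iw; rw [Finset.sum_add_distrib]

theorem psh : PSHStmt := by
  intro V _ HR HO w t Zp Zm z D K h
  obtain ⟨δ1, a1, a2, a3, a4⟩ := push_rows HO Zp
    (fun x => (od HR x : ℝ) + ow HO w x - t) z D K h.hz h.hD h.hK h.dp h.dm h.mp h.kp (by
      intro x hx
      have := h.row x
      rw [if_neg hx, sub_zero] at this
      exact this)
  obtain ⟨δ2, b1, b2, b3, b4⟩ := push_rows (sw HO) Zm
    (fun y => (idg HR y : ℝ) + iw HO w y - t) z D K h.hz h.hD h.hK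
    (fun x => by rw [od_sw]; exact h.dm x) (fun x => by rw [idg_sw]; exact h.dp x)
    (fun x => by rw [m2p_sw]; exact h.mm x)
    (fun x => by rw [kk_sw]; exact h.km x) (by
      intro y hy
      have := h.col y
      rw [if_neg hy, sub_zero] at this
      exact this)
  have hz3 : z / 1000 ≤ 1 / 1000 := by linarith [h.hz1]
  refine ⟨fun a => w a + δ1 a + δ2 (a.2, a.1), ?_, ?_, ?_, ?_, ?_⟩
  · intro a ha
    have h1 := h.hw a ha
    have h2 := abs_le.1 (a4 a ha)
    have h3 := abs_le.1 (b4 (a.2, a.1) ((mem_sw HO a.2 a.1).2 ha))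
    constructor
    · linarith [h1.1, h2.1, h3.1]
    · linarith [h1.2, h2.2, h3.2]
  · intro x hx
    rw [ow_add HO (fun a => w a + δ1 a), ow_add HO w, a1 x hx]
    have := b3 x
    rw [iw_sw] at this
    rw [this]
    ring
  · intro x hx
    rw [ow_add HO (fun a => w a + δ1 a), ow_add HO w]
    have h3 := b3 x
    rw [iw_sw] at h3
    rw [h3]
    have h1 := h.row x
    rw [if_pos hx] at h1
    have h2 := a2 x hx
    rw [abs_le] at h1 h2 ⊢
    constructor
    · linarith [h1.1, h2.1]
    · linarith [h1.2, h2.2]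
  · intro y hy
    rw [iw_add HO (fun a => w a + δ1 a), iw_add HO w, a3 y]
    have := b1 y hy
    rw [ow_sw] at this
    rw [this]
    ring
  · intro y hy
    rw [iw_add HO (fun a => w a + δ1 a), iw_add HO w, a3 y]
    have h1 := h.col y
    rw [if_pos hy] at h1
    have h2 := b2 y hy
    rw [ow_sw] at h2
    rw [abs_le] at h1 h2 ⊢
    constructor
    · linarith [h1.1, h2.1]
    · linarith [h1.2, h2.2]

end Pool.Agent.C4W.H82
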